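import Pool.Agent.H22.Lh.Fin
import Pool.Agent.H22.Lh.Hgt

/-!
# The Lehmer inequality in quadratic mean for finite rank groups with finitely generated torsion-free part

`G = 𝔾_m`, `V = {α}`. For `L = K(Γ)` the obstruction index `ω_L({α})` is the degree
`D = [L(α) : L]` and the essential minimum is the absolute logarithmic Weil height `h(α)`.
-/

set_option autoImplicit false

open Polynomial NumberField

namespace Pool.Agent.Results.MP_187c26_nt.QuadraticMean

/-- `K(Γ)`, the field generated over `K` by the elements of `Γ`. -/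
noncomputable def fieldOf (K : IntermediateField ℚ ℂ) (Γ : Subgroup ℂˣ) : IntermediateField ℚ ℂ :=
  K ⊔ IntermediateField.adjoin ℚ ((fun γ : ℂˣ => (γ : ℂ)) '' (Γ : Set ℂˣ))

/-- `K(S)`. -/
noncomputable def fieldOfSet (K : IntermediateField ℚ ℂ) (S : Finset ℂˣ) :
    IntermediateField ℚ ℂ :=
  K ⊔ IntermediateField.adjoin ℚ ((fun γ : ℂˣ => (γ : ℂ)) '' (S : Set ℂˣ))

/-- The degree `[L(α) : L]` of `α` over `L`. -/
noncomputable def degreeOver (L : IntermediateField ℚ ℂ) (α : ℂ) : ℕ := (minpoly L α).natDegree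

/-- The multiset of conjugates of `α` over `ℚ`. -/
noncomputable def conj (α : ℂ) : Multiset ℂ := (minpoly ℚ α).aroots ℂ

/-- The mean over the conjugates `z` of `α` of `min (log⁺ |z|) ((log⁺ |z|)^2)`. -/
noncomputable def minMean (α : ℂ) : ℝ :=
  ((conj α).map fun z => min (Real.posLog ‖z‖) (Real.posLog ‖z‖ ^ 2)).sum /
    (minpoly ℚ α).natDegree

/-- `α` is an algebraic integer, not zero and not a root of unity. -/
def IsNontorsionInteger (α : ℂ) : Prop :=
  IsIntegral ℤ α ∧ α ≠ 0 ∧ ∀ k : ℕ, 0 < k → α ^ k ≠ 1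

section Auxiliary

open Pool.H22.Lh

lemma meanC_mono {F G : ℂ → ℝ} {α : ℂ} (h : ∀ z ∈ conj α, F z ≤ G z) :
    meanC F α ≤ meanC G α := by
  unfold meanC
  apply div_le_div_of_nonneg_right _ (by positivity)
  exact Multiset.sum_map_le_sum_map _ _ h

lemma algebraic_mem {K : IntermediateField ℚ ℂ} {S : Finset ℂˣ} {s : ℂˣ}
    (hs : s ∈ Subgroup.closure (S : Set ℂˣ)) : (s : ℂ) ∈ fieldOfSet K S := by
  induction hs using Subgroup.closure_induction with
  | mem x hx =>
    exact (le_sup_right : _ ≤ fieldOfSet K S)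
      (IntermediateField.subset_adjoin ℚ _ ⟨x, hx, rfl⟩)
  | one => simp
  | mul x y _ _ hx hy => rw [Units.val_mul]; exact mul_mem hx hy
  | inv x _ hx => rw [Units.val_inv_eq_inv_val]; exact inv_mem hx

lemma fd_fieldOfSet (K : IntermediateField ℚ ℂ) [FiniteDimensional ℚ K] (S : Finset ℂˣ)
    (hS : ∀ s ∈ S, IsAlgebraic ℚ (s : ℂ)) : FiniteDimensional ℚ (fieldOfSet K S) := by
  have : FiniteDimensional ℚ
      (IntermediateField.adjoin ℚ ((fun γ : ℂˣ => (γ : ℂ)) '' (S : Set ℂˣ))) := by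
    have hfin : ((fun γ : ℂˣ => (γ : ℂ)) '' (S : Set ℂˣ)).Finite := S.finite_toSet.image _
    apply IntermediateField.finiteDimensional_adjoin (hS := ?_)
    rintro x ⟨s, hs, rfl⟩
    exact (hS s hs).isIntegral
  unfold fieldOfSet
  infer_instance

lemma degreeOver_anti {L M : IntermediateField ℚ ℂ} (h : L ≤ M) {α : ℂ} (hα : IsIntegral ℚ α) :
    degreeOver M α ≤ degreeOver L α := by
  unfold degreeOver
  have hαL : IsIntegral L α := hα.tower_top
  set P := (minpoly L α).map (IntermediateField.inclusion h).toRingHom with hP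
  have hPm : P.Monic := (minpoly.monic hαL).map _
  have h0 : aeval α P = 0 := by
    rw [aeval_def, hP, eval₂_map]
    have : (algebraMap M ℂ).comp (IntermediateField.inclusion h).toRingHom = algebraMap L ℂ := by
      ext x; rfl
    rw [this]
    exact minpoly.aeval L α
  have h1 := natDegree_le_of_dvd (minpoly.dvd M α h0) hPm.ne_zero
  rwa [hP, (minpoly.monic hαL).natDegree_map] at h1

end Auxiliary

open Pool.H22.Lh in
theorem result (K : IntermediateField ℚ ℂ) [FiniteDimensional ℚ K] (S : Finset ℂˣ)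
    (Γ : Subgroup ℂˣ) (hS : ∀ s ∈ S, IsAlgebraic ℚ (s : ℂ))
    (hΓ : ∀ γ ∈ Γ, ∃ s ∈ Subgroup.closure (S : Set ℂˣ), ∃ ζ : ℂˣ, IsOfFinOrder ζ ∧ γ = s * ζ)
    (α : ℂ) (hα : IsNontorsionInteger α) :
    (1 : ℝ) / 10 ^ 9 ≤
        ((Module.finrank ℚ (fieldOfSet K S) : ℝ) * degreeOver (fieldOf K Γ) α) ^ 2 * minMean α ∧
      ∀ η : ℝ, (∀ z ∈ conj α, Real.log ‖z‖ ≤ η) →
        minMean α ≤ absLogHeight₁ α * η ∧
        ∀ C : ℝ, η ≤ C / degreeOver (fieldOf K Γ) α →
          (1 : ℝ) / 10 ^ 9 ≤ C * (Module.finrank ℚ (fieldOfSet K S) : ℝ) ^ 2 *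
            (degreeOver (fieldOf K Γ) α * absLogHeight₁ α) := by
  obtain ⟨hαi, hα0, hα1⟩ := hα
  have hαQ : IsIntegral ℚ α := hαi.tower_top
  have := fd_fieldOfSet K S hS
  have key := fin_main (fieldOfSet K S) Γ ?_ α hαi hα0 hα1
  swap
  · intro γ hγ
    obtain ⟨s, hs, ζ, hζ, rfl⟩ := hΓ γ hγ
    refine ⟨s, algebraic_mem hs, ζ, ?_, by simp⟩
    obtain ⟨r, hr, h⟩ := isOfFinOrder_iff_pow_eq_one.1 hζ
    exact ⟨r, hr, by rw [← Units.val_pow_eq_pow_val, h, Units.val_one]⟩
  set e : ℝ := (Module.finrank ℚ (fieldOfSet K S) : ℝ) with he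
  set D : ℝ := (degreeOver (fieldOf K Γ) α : ℝ) with hD
  set D' : ℝ := ((minpoly (fieldOfSet K S ⊔
    IntermediateField.adjoin ℚ ((fun γ : ℂˣ => (γ : ℂ)) '' Γ) :
        IntermediateField ℚ ℂ) α).natDegree : ℝ) with hD'
  have hDD : D' ≤ D := by
    rw [hD, hD']
    exact_mod_cast degreeOver_anti (L := fieldOf K Γ) (sup_le_sup_right le_sup_left _) hαQ
  have hD'0 : 0 ≤ D' := by positivity
  have he0 : 0 ≤ e := by positivity
  have hm0 : 0 ≤ meanC (fun z => phi (lp z)) α := by
    unfold meanC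
    apply div_nonneg _ (by positivity)
    apply Multiset.sum_nonneg
    intro x hx
    obtain ⟨z, _, rfl⟩ := Multiset.mem_map.1 hx
    exact phi_nonneg (lp_nonneg z)
  have hc : (1 : ℝ) / 10 ^ 9 ≤ (e * D) ^ 2 * meanC (fun z => phi (lp z)) α := by
    have h1 : D' ^ 2 ≤ D ^ 2 := pow_le_pow_left₀ hD'0 hDD 2
    have h2 : 40 * e ^ 2 * D' ^ 2 * meanC (fun z => phi (lp z)) α ≤
        40 * e ^ 2 * D ^ 2 * meanC (fun z => phi (lp z)) α := by
      apply mul_le_mul_of_nonneg_right _ hm0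
      exact mul_le_mul_of_nonneg_left h1 (by positivity)
    have h3 : c1 / C1 = 1 / 4000000 := by unfold c1 C1; norm_num
    rw [h3] at key
    have h4 := key.trans h2
    have h5 : 40 * e ^ 2 * D ^ 2 * meanC (fun z => phi (lp z)) α =
      40 * ((e * D) ^ 2 * meanC (fun z => phi (lp z)) α) := by ring
    rw [h5] at h4
    norm_num at h4 ⊢
    linarith
  refine ⟨hc, ?_⟩
  intro η hη
  have hη0 : 0 ≤ η := by
    by_contra hneg
    push Not at hneg
    have : meanC Pool.H22.Lh.lp α ≤ 0 := by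
      have h1 : meanC Pool.H22.Lh.lp α ≤ meanC (fun _ => 0) α := by
        apply meanC_mono
        intro z hz
        have h2 := hη z hz
        unfold Pool.H22.Lh.lp
        rw [Real.posLog_apply]
        exact max_le le_rfl (h2.trans hneg.le)
      refine h1.trans (le_of_eq ?_)
      simp [meanC]
    obtain ⟨k, hk, hk1⟩ := mean_zero α hαi hα0 this
    exact hα1 k hk hk1
  have h1 : meanC (fun z => phi (lp z)) α ≤ absLogHeight₁ α * η := by
    rw [height_eq α hαi]
    have h2 : meanC (fun z => phi (lp z)) α ≤ meanC (fun z => η * lp z) α := by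
      apply meanC_mono
      intro z hz
      have h3 : lp z ≤ η := by
        unfold Pool.H22.Lh.lp
        rw [Real.posLog_apply]
        exact max_le hη0 (hη z hz)
      calc phi (lp z) ≤ lp z ^ 2 := phi_le_sq _
        _ = lp z * lp z := sq _
        _ ≤ η * lp z := mul_le_mul_of_nonneg_right h3 (lp_nonneg z)
    rw [mean_smul] at h2
    linarith [mul_comm η (meanC lp α)]
  refine ⟨h1, ?_⟩
  intro C hC
  have hh0 : 0 ≤ absLogHeight₁ α := by
    rw [height_eq α hαi]
    unfold meanC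
    apply div_nonneg _ (by positivity)
    apply Multiset.sum_nonneg
    intro x hx
    obtain ⟨z, _, rfl⟩ := Multiset.mem_map.1 hx
    exact lp_nonneg z
  have hDpos : 0 < D := by
    rw [hD]
    have : 0 < degreeOver (fieldOf K Γ) α := minpoly.natDegree_pos hαQ.tower_top
    exact_mod_cast this
  calc (1 : ℝ) / 10 ^ 9 ≤ (e * D) ^ 2 * meanC (fun z => phi (lp z)) α := hc
    _ ≤ (e * D) ^ 2 * (absLogHeight₁ α * η) := mul_le_mul_of_nonneg_left h1 (by positivity)
    _ ≤ (e * D) ^ 2 * (absLogHeight₁ α * (C / D)) := by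
        apply mul_le_mul_of_nonneg_left _ (by positivity)
        exact mul_le_mul_of_nonneg_left hC hh0
    _ = C * e ^ 2 * (D * absLogHeight₁ α) := by
        field_simp

end Pool.Agent.Results.MP_187c26_nt.QuadraticMean
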